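import Pool.Agent.H482R3.EB.Cen

set_option autoImplicit false

/-! Project EB, task Z_PHI (helper16): the homomorphisms of the line groups into `AJ c`. -/

namespace Pool.Agent.H16R2.EB

open Pool.Agent.H482R3 Pool.Agent.H482R3.EB
open Pool.Agent.H482R3.EA (W inv ev PP xx evF cond1 cond2 cV cW LIdx Syl gOf iW iV letF valS
  Sys St Near InD Adm Act)

section

variable {V Wt : Type} (c : V ⊕ Wt → V ⊕ Wt → ℕ)

/-- the homomorphisms of the line groups -/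
noncomputable def phiPhi (jV : AR (cV c) →* AJ c) (jW : AR (cW c) →* AJ c) :
    (l : LnB c) → LB c l →* AJ c
  | .inl g => ((MulAut.conj (jW g)).toMonoidHom.comp jV : AR (cV c) →* AJ c)
  | .inr q => (FreeGroup.lift (fun r : Fin (c (.inl q.1.1.1) (.inr q.1.1.2)) =>
      jW q.2.out * gJ c (.inr q.1.1.2) ^ (r : ℕ) * gJ c (.inl q.1.1.1) *
        gJ c (.inr q.1.1.2) ^ (-((r : ℕ) : ℤ)) * (jW q.2.out)⁻¹) :
      FreeGroup (Fin (c (.inl q.1.1.1) (.inr q.1.1.2))) →* AJ c)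

theorem phiPhi_inl (jV : AR (cV c) →* AJ c) (jW : AR (cW c) →* AJ c) (g : AR (cW c))
    (y : AR (cV c)) :
    phiPhi c jV jW (.inl g) y = jW g * jV y * (jW g)⁻¹ := rfl

theorem phiPhi_inr (jV : AR (cV c) →* AJ c) (jW : AR (cW c) →* AJ c)
    (q : Σ i : LIdx c, AR (cW c) ⧸ Subgroup.zpowers (gR (cW c) i.1.2))
    (y : FreeGroup (Fin (c (.inl q.1.1.1) (.inr q.1.1.2)))) :
    phiPhi c jV jW (.inr q) y =
      FreeGroup.lift (fun r : Fin (c (.inl q.1.1.1) (.inr q.1.1.2)) =>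
      jW q.2.out * gJ c (.inr q.1.1.2) ^ (r : ℕ) * gJ c (.inl q.1.1.1) *
        gJ c (.inr q.1.1.2) ^ (-((r : ℕ) : ℤ)) * (jW q.2.out)⁻¹) y := rfl

end

theorem phi_all (hX : EA.S_XH) (hT : S_TOT) (hL : S_LIFTR) (hR : S_RELR) :
    ∀ (V Wt : Type) (c : V ⊕ Wt → V ⊕ Wt → ℕ),
      ∃ (jV : AR (cV c) →* AJ c) (jW : AR (cW c) →* AJ c) (φ : (l : LnB c) → LB c l →* AJ c),
        (∀ v, jV (gR (cV c) v) = gJ c (.inl v)) ∧
        (∀ w, jW (gR (cW c) w) = gJ c (.inr w)) ∧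
        (∀ (g : AR (cW c)) (y : AR (cV c)), φ (.inl g) y = jW g * jV y * (jW g)⁻¹) ∧
        (∀ (l : LnB c) (p : PB c), IB c p l →
          φ l (xB c l p) = jW p.1 * gJ c (.inl p.2) * (jW p.1)⁻¹) := by
  intro V Wt c
  obtain ⟨jV, hjV, -⟩ := hL V (AJ c) inferInstance (cV c) (fun v => gJ c (.inl v))
    (hR.2 V Wt c).1
  obtain ⟨jW, hjW, -⟩ := hL Wt (AJ c) inferInstance (cW c) (fun w => gJ c (.inr w))
    (hR.2 V Wt c).2.1
  refine ⟨jV, jW, phiPhi c jV jW, hjV, hjW, phiPhi_inl c jV jW, ?_⟩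
  intro l p hp
  rcases l with g | q
  · have hp' : p.1 = g := hp
    subst hp'
    show phiPhi c jV jW (.inl p.1) (gR (cV c) p.2) = _
    rw [phiPhi_inl, hjV]
  · obtain ⟨hp1, hp2⟩ : p.2 = q.1.1.1 ∧
      (QuotientGroup.mk p.1 : AR (cW c) ⧸ Subgroup.zpowers (gR (cW c) q.1.1.2)) = q.2 := hp
    have hk : c (.inl q.1.1.1) (.inr q.1.1.2) ≠ 0 := q.1.2
    have h1 : (q.2.out)⁻¹ * p.1 ∈ Subgroup.zpowers (gR (cW c) q.1.1.2) := by
      rw [← QuotientGroup.eq, hp2]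
      exact Quotient.out_eq' q.2
    obtain ⟨n, hn⟩ := Subgroup.mem_zpowers_iff.1 h1
    have hx : totg (cW c) ((q.2.out)⁻¹ * p.1) = n := by
      rw [← hn, (hT Wt (cW c)).2.2.2.1]
    have hp3 : p.1 = q.2.out * gR (cW c) q.1.1.2 ^ n := by
      rw [hn, mul_inv_cancel_left]
    have hr := (hR.2 V Wt c).2.2 q.1.1.1 q.1.1.2 hk
    show phiPhi c jV jW (.inr q) (xx _ (totg (cW c) ((q.2.out : AR (cW c))⁻¹ * p.1))) = _
    rw [hx, phiPhi_inr, hX (AJ c) inferInstance _ _ _ _ (Nat.pos_of_ne_zero hk) hr n, hp3, hp1,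
      map_mul, map_zpow, hjW]
    group

/-- Z_PHI -/
theorem t_PHI (hX : EA.S_XH) (_hXX : EA.S_XX) (hT : S_TOT) (hL : S_LIFTR) (hR : S_RELR) :
    S_PHI := by
  intro V Wt c
  obtain ⟨jV, jW, φ, hV, hW, hB, hx⟩ := phi_all hX hT hL hR V Wt c
  exact ⟨{
    ι := jW
    φ := φ
    hι := hW
    hB := fun g v => by rw [hB, hV]
    hx := hx }⟩

end Pool.Agent.H16R2.EB
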